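import Pool.Agent.Helper84.Kos.Goals

set_option autoImplicit false

namespace Pool.Agent.Helper40.Kos

open LieAlgebra Pool.Agent.Helper84.Kos

/-- `I` has finite codimension. -/
def CoFin {L : Type} [LieRing L] [LieAlgebra ℚ L] (I : LieIdeal ℚ L) : Prop :=
  ∃ F : Set L, F.Finite ∧ (⊤ : Submodule ℚ L) ≤ I.toSubmodule ⊔ Submodule.span ℚ F

theorem CoFin.mono {L : Type} [LieRing L] [LieAlgebra ℚ L] {I J : LieIdeal ℚ L} (h : I ≤ J)
    (hI : CoFin I) : CoFin J := by
  obtain ⟨F, hF, hF2⟩ := hI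
  exact ⟨F, hF, hF2.trans (sup_le_sup_right (LieSubmodule.toSubmodule_le_toSubmodule _ _ |>.2 h) _)⟩

/-- Ideals of finite codimension in finitely generated `k`-Engel algebras are finitely
generated subalgebras. -/
theorem fg_of_coFin {L : Type} [LieRing L] [LieAlgebra ℚ L] (h4 : StmtT4) (k : ℕ)
    (hk : ∀ x : L, ad ℚ L x ^ k = 0)
    (hfg : ∃ S : Set L, S.Finite ∧ LieSubalgebra.lieSpan ℚ L S = ⊤) (I : LieIdeal ℚ L)
    (hI : CoFin I) :
    ∃ S : Set L, S.Finite ∧ LieSubalgebra.lieSpan ℚ L S = I.toLieSubalgebra := by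
  obtain ⟨F, hF, hF2⟩ := hI
  refine h4 L k hk ⊤ I.toLieSubalgebra le_top ?_ hfg ⟨F, hF, ?_⟩
  · intro x _ y hy
    rw [LieIdeal.mem_toLieSubalgebra] at hy ⊢
    exact lie_mem_right ℚ L I x y hy
  · exact hF2

theorem finite_subset_chain {α β : Type*} [SetLike β α] [PartialOrder β] [IsConcreteLE β α]
    (c : Set β) (hc : IsChain (· ≤ ·) c) (hne : c.Nonempty) (S : Set α) (hS : S.Finite)
    (h : ∀ s ∈ S, ∃ J ∈ c, s ∈ J) : ∃ J ∈ c, ∀ s ∈ S, s ∈ J := by
  induction S, hS using Set.Finite.induction_on with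
  | empty => exact ⟨hne.some, hne.some_mem, by simp⟩
  | insert _ _ ih =>
    rename_i a S _ _
    obtain ⟨J, hJ, hJS⟩ := ih (fun s hs => h s (Set.mem_insert_of_mem _ hs))
    obtain ⟨J', hJ', haJ'⟩ := h a (Set.mem_insert _ _)
    rcases hc.total hJ hJ' with hle | hle
    · refine ⟨J', hJ', fun s hs => ?_⟩
      rcases Set.mem_insert_iff.1 hs with rfl | hs
      · exact haJ'
      · exact SetLike.le_def.1 hle (hJS s hs)
    · refine ⟨J, hJ, fun s hs => ?_⟩
      rcases Set.mem_insert_iff.1 hs with rfl | hs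
      · exact SetLike.le_def.1 hle haJ'
      · exact hJS s hs

/-- The sum of all sandwiches, as an ideal. -/
def sandIdeal {L : Type} [LieRing L] [LieAlgebra ℚ L]
    (h : ∀ c : L, ad ℚ L c ^ 2 = 0 → ∀ x : L,
      ⁅x, c⁆ ∈ Submodule.span ℚ {d : L | ad ℚ L d ^ 2 = 0}) : LieIdeal ℚ L where
  toSubmodule := Submodule.span ℚ {d : L | ad ℚ L d ^ 2 = 0}
  lie_mem := by
    intro x m hm
    change m ∈ Submodule.span ℚ {d : L | ad ℚ L d ^ 2 = 0} at hm
    change ⁅x, m⁆ ∈ Submodule.span ℚ {d : L | ad ℚ L d ^ 2 = 0}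
    induction hm using Submodule.span_induction with
    | mem c hc => exact h c hc x
    | zero => rw [lie_zero]; exact Submodule.zero_mem _
    | add a b _ _ ha hb => rw [lie_add]; exact Submodule.add_mem _ ha hb
    | smul t a _ ha => rw [lie_smul]; exact Submodule.smul_mem _ _ ha

/-- If every nonzero ideal has finite codimension then the algebra is finite dimensional. -/
theorem coFin_bot_of_just_infinite {M : Type} [LieRing M] [LieAlgebra ℚ M] (h1 : StmtT1)
    (h23 : StmtT23) (h4 : StmtT4) (h5 : StmtT5) (k : ℕ) (hk : ∀ x : M, ad ℚ M x ^ k = 0)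
    (hfg : ∃ S : Set M, S.Finite ∧ LieSubalgebra.lieSpan ℚ M S = ⊤) (hne : ∃ a : M, a ≠ 0)
    (hcof : ∀ J : LieIdeal ℚ M, (∃ a ∈ J, a ≠ 0) → CoFin J) : CoFin (⊥ : LieIdeal ℚ M) := by
  obtain ⟨c0, hc0, hc2⟩ := h23 M k hk hne
  set J := sandIdeal (h5 M k hk) with hJ
  have hmem : ∀ x : M, x ∈ J ↔ x ∈ Submodule.span ℚ {d : M | ad ℚ M d ^ 2 = 0} := fun x => Iff.rfl
  have hJc : CoFin J := hcof J ⟨c0, (hmem c0).2 (Submodule.subset_span hc2), hc0⟩
  obtain ⟨T, hT, hTJ⟩ := fg_of_coFin h4 k hk hfg J hJc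
  have hTmem : ∀ t ∈ T, ∃ U : Finset M, (U : Set M) ⊆ {d : M | ad ℚ M d ^ 2 = 0} ∧
      t ∈ Submodule.span ℚ (U : Set M) := by
    intro t ht
    have h1 : t ∈ J.toLieSubalgebra := by
      rw [← hTJ]; exact LieSubalgebra.subset_lieSpan ht
    exact Submodule.mem_span_finite_of_mem_span ((hmem t).1 h1)
  choose! U hU1 hU2 using hTmem
  set V : Set M := ⋃ t ∈ T, (U t : Set M) with hV
  have hVfin : V.Finite := hT.biUnion (fun t _ => (U t).finite_toSet)
  have hVs : ∀ c ∈ V, ad ℚ M c ^ 2 = 0 := by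
    intro c hc
    simp only [hV, Set.mem_iUnion] at hc
    obtain ⟨t, ht, hc⟩ := hc
    exact hU1 t ht hc
  have hfd := h1 M V hVfin hVs
  have hle : J.toLieSubalgebra ≤ LieSubalgebra.lieSpan ℚ M V := by
    rw [← hTJ, LieSubalgebra.lieSpan_le]
    intro t ht
    have : Submodule.span ℚ (U t : Set M) ≤ Submodule.span ℚ V :=
      Submodule.span_mono (Set.subset_biUnion_of_mem (u := fun t => (U t : Set M)) ht)
    exact LieSubalgebra.submodule_span_le_lieSpan (this (hU2 t ht))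
  have hfd' : (LieSubalgebra.lieSpan ℚ M V).toSubmodule.FG := by
    rw [Submodule.fg_iff_finiteDimensional]
    exact hfd
  have hJfg : J.toSubmodule.FG := by
    have hle' : J.toSubmodule ≤ (LieSubalgebra.lieSpan ℚ M V).toSubmodule := fun x hx => hle hx
    rw [Submodule.fg_iff_finiteDimensional] at hfd' ⊢
    exact Submodule.finiteDimensional_of_le hle'
  obtain ⟨F, hF, hF2⟩ := hJc
  obtain ⟨G, hG, hG2⟩ := Submodule.fg_def.1 hJfg
  refine ⟨F ∪ G, hF.union hG, ?_⟩
  rw [Submodule.span_union]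
  refine hF2.trans ?_
  rw [← hG2]
  exact sup_le (le_sup_of_le_right le_sup_right) (le_sup_of_le_right le_sup_left)

theorem ad_pow_mk {L : Type} [LieRing L] [LieAlgebra ℚ L] (I : LieIdeal ℚ L) (x y : L) (n : ℕ) :
    ((ad ℚ (L ⧸ I) (LieSubmodule.Quotient.mk x : L ⧸ I)) ^ n) (LieSubmodule.Quotient.mk y) =
      LieSubmodule.Quotient.mk ((ad ℚ L x ^ n) y) := by
  induction n generalizing y with
  | zero => simp
  | succ n ih =>
    rw [pow_succ, pow_succ, Module.End.mul_apply, Module.End.mul_apply]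
    have : (ad ℚ (L ⧸ I) (LieSubmodule.Quotient.mk x : L ⧸ I)) (LieSubmodule.Quotient.mk y)
        = LieSubmodule.Quotient.mk ((ad ℚ L x) y) := by
      simp only [ad_apply]
      rfl
    rw [this, ih]

theorem stmtMain (h1 : StmtT1) (h23 : StmtT23) (h4 : StmtT4) (h5 : StmtT5) : StmtMain := by
  intro L _ _ k hk hfg
  by_contra hnf
  have hbot : ¬ CoFin (⊥ : LieIdeal ℚ L) := by
    rintro ⟨F, hF, hF2⟩
    apply hnf
    have h : (⊤ : Submodule ℚ L).FG := by
      rw [Submodule.fg_def]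
      refine ⟨F, hF, ?_⟩
      rw [eq_top_iff]
      simpa using hF2
    exact Module.finite_def.2 h
  obtain ⟨I, -, hI⟩ := zorn_le_nonempty₀ {I : LieIdeal ℚ L | ¬ CoFin I} (by
    intro c hc hchain y hy
    refine ⟨sSup c, ?_, fun z hz => le_sSup hz⟩
    intro hcof
    obtain ⟨S, hS, hSI⟩ := fg_of_coFin h4 k hk hfg _ hcof
    have hdir : DirectedOn (· ≤ ·) {s : Submodule ℚ L | ∃ J ∈ c, (J : LieIdeal ℚ L).toSubmodule = s} := by
      rintro _ ⟨J, hJ, rfl⟩ _ ⟨J', hJ', rfl⟩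
      rcases hchain.total hJ hJ' with hle | hle
      · exact ⟨_, ⟨J', hJ', rfl⟩, hle, le_refl (α := Submodule ℚ L) _⟩
      · exact ⟨_, ⟨J, hJ, rfl⟩, le_refl (α := Submodule ℚ L) _, hle⟩
    have hex : ∀ s ∈ S, ∃ J ∈ c, s ∈ J := by
      intro s hs
      have h1 : s ∈ (sSup c : LieIdeal ℚ L).toLieSubalgebra := by
        rw [← hSI]; exact LieSubalgebra.subset_lieSpan hs
      have h2 : s ∈ (sSup c : LieIdeal ℚ L).toSubmodule := h1
      have hnonempty : {s : Submodule ℚ L | ∃ J ∈ c, (J : LieIdeal ℚ L).toSubmodule = s}.Nonempty :=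
        ⟨_, y, hy, rfl⟩
      rw [LieSubmodule.sSup_toSubmodule] at h2
      have h2 := (Submodule.mem_sSup_of_directed hnonempty hdir).1 h2
      obtain ⟨_, ⟨J, hJ, rfl⟩, hsJ⟩ := h2
      exact ⟨J, hJ, hsJ⟩
    obtain ⟨J, hJ, hSJ⟩ := finite_subset_chain c hchain ⟨y, hy⟩ S hS hex
    have hle : (sSup c : LieIdeal ℚ L) ≤ J := by
      have h3 : (sSup c : LieIdeal ℚ L).toLieSubalgebra ≤ J.toLieSubalgebra := by
        rw [← hSI, LieSubalgebra.lieSpan_le]
        intro s hs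
        exact hSJ s hs
      intro x hx
      exact h3 hx
    exact hc hJ (CoFin.mono hle hcof)) ⊥ hbot
  have hImax : ∀ J : LieIdeal ℚ L, I < J → CoFin J := by
    intro J hlt
    by_contra hJ
    exact not_le_of_gt hlt (hI.2 hJ hlt.le)
  have hInot : ¬ CoFin I := hI.1
  -- the quotient
  have hsurj : Function.Surjective (LieSubmodule.Quotient.mk : L → L ⧸ I) :=
    LieSubmodule.Quotient.surjective_mk' I
  have hz0 : ∀ x ∈ I, (LieSubmodule.Quotient.mk x : L ⧸ I) = 0 := fun x hx =>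
    (LieSubmodule.Quotient.mk_eq_zero (N := I)).2 hx
  have hkM : ∀ x : L ⧸ I, ad ℚ (L ⧸ I) x ^ k = 0 := by
    intro x
    obtain ⟨x, rfl⟩ := hsurj x
    ext y
    obtain ⟨y, rfl⟩ := hsurj y
    rw [ad_pow_mk, hk x]
    simp
  have hfgM : ∃ S : Set (L ⧸ I), S.Finite ∧ LieSubalgebra.lieSpan ℚ (L ⧸ I) S = ⊤ := by
    obtain ⟨S, hS, hSt⟩ := hfg
    refine ⟨(LieSubmodule.Quotient.mk : L → L ⧸ I) '' S, hS.image _, ?_⟩
    rw [eq_top_iff]
    intro y hy
    obtain ⟨x, rfl⟩ := hsurj y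
    clear hy
    have hx : x ∈ LieSubalgebra.lieSpan ℚ L S := by rw [hSt]; trivial
    induction hx using LieSubalgebra.lieSpan_induction with
    | mem x hx => exact LieSubalgebra.subset_lieSpan ⟨x, hx, rfl⟩
    | zero => exact LieSubalgebra.zero_mem _
    | smul r x _ hx => exact LieSubalgebra.smul_mem _ r hx
    | add x y _ _ hx hy => exact LieSubalgebra.add_mem _ hx hy
    | lie x y _ _ hx hy => exact LieSubalgebra.lie_mem _ hx hy
  have hneM : ∃ a : L ⧸ I, a ≠ 0 := by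
    by_contra hall
    push Not at hall
    apply hInot
    refine ⟨∅, Set.finite_empty, ?_⟩
    rw [Submodule.span_empty, sup_bot_eq]
    intro x _
    exact (LieSubmodule.Quotient.mk_eq_zero (N := I)).1 (hall (LieSubmodule.Quotient.mk x))
  have hcofM : ∀ J : LieIdeal ℚ (L ⧸ I), (∃ a ∈ J, a ≠ 0) → CoFin J := by
    rintro J ⟨a, haJ, ha0⟩
    let K : LieIdeal ℚ L :=
      { carrier := {x | (LieSubmodule.Quotient.mk x : L ⧸ I) ∈ J}
        add_mem' := fun {x y} hx hy => J.add_mem hx hy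
        zero_mem' := J.zero_mem
        smul_mem' := fun r x hx => J.smul_mem r hx
        lie_mem := fun {x m} hm => by
          change (LieSubmodule.Quotient.mk ⁅x, m⁆ : L ⧸ I) ∈ J
          rw [LieSubmodule.Quotient.mk_bracket]
          exact lie_mem_right ℚ (L ⧸ I) J _ _ hm }
    have hKmem : ∀ x, x ∈ K ↔ (LieSubmodule.Quotient.mk x : L ⧸ I) ∈ J := fun x => Iff.rfl
    have hlt : I < K := by
      refine lt_of_le_of_ne (fun x hx => ?_) ?_
      · rw [hKmem, hz0 x hx]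
        exact J.zero_mem
      · intro heq
        obtain ⟨x, rfl⟩ := hsurj a
        have : x ∈ I := by rw [heq]; exact haJ
        exact ha0 ((LieSubmodule.Quotient.mk_eq_zero (N := I)).2 this)
    obtain ⟨F, hF, hF2⟩ := hImax K hlt
    refine ⟨(LieSubmodule.Quotient.mk : L → L ⧸ I) '' F, hF.image _, ?_⟩
    intro y hy
    obtain ⟨x, rfl⟩ := hsurj y
    clear hy
    obtain ⟨u, hu, v, hv, rfl⟩ := Submodule.mem_sup.1 (hF2 (show x ∈ (⊤ : Submodule ℚ L) from trivial))
    refine Submodule.mem_sup.2 ⟨LieSubmodule.Quotient.mk u, hu, LieSubmodule.Quotient.mk v, ?_, rfl⟩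
    induction hv using Submodule.span_induction with
    | mem x hx => exact Submodule.subset_span ⟨x, hx, rfl⟩
    | zero => exact Submodule.zero_mem _
    | add x y _ _ hx hy => exact Submodule.add_mem _ hx hy
    | smul r x _ hx => exact Submodule.smul_mem _ r hx
  obtain ⟨F, hF, hF2⟩ := coFin_bot_of_just_infinite h1 h23 h4 h5 k hkM hfgM hneM hcofM
  apply hInot
  -- lift
  obtain ⟨G, hG, hGF⟩ : ∃ G : Set L, G.Finite ∧ (LieSubmodule.Quotient.mk : L → L ⧸ I) '' G = F := by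
    refine ⟨(Function.surjInv hsurj) '' F, hF.image _, ?_⟩
    rw [Set.image_image]
    simp [Function.surjInv_eq hsurj]
  refine ⟨G, hG, ?_⟩
  intro x _
  have h0 : (LieSubmodule.Quotient.mk x : L ⧸ I) ∈ Submodule.span ℚ F := by
    have := hF2 (Submodule.mem_top (x := (LieSubmodule.Quotient.mk x : L ⧸ I)))
    simpa using this
  have h6 : ∀ z ∈ Submodule.span ℚ F, ∃ g ∈ Submodule.span ℚ G,
      (LieSubmodule.Quotient.mk g : L ⧸ I) = z := by
    intro z hz
    induction hz using Submodule.span_induction with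
    | mem z hz =>
      rw [← hGF] at hz
      obtain ⟨g, hg, rfl⟩ := hz
      exact ⟨g, Submodule.subset_span hg, rfl⟩
    | zero => exact ⟨0, Submodule.zero_mem _, rfl⟩
    | add a b _ _ ha hb =>
      obtain ⟨g, hg, rfl⟩ := ha
      obtain ⟨g', hg', rfl⟩ := hb
      exact ⟨g + g', Submodule.add_mem _ hg hg', rfl⟩
    | smul r a _ ha =>
      obtain ⟨g, hg, rfl⟩ := ha
      exact ⟨r • g, Submodule.smul_mem _ _ hg, rfl⟩
  obtain ⟨g, hg, hgx⟩ := h6 _ h0
  refine Submodule.mem_sup.2 ⟨x - g, ?_, g, hg, by abel⟩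
  have : (LieSubmodule.Quotient.mk (x - g) : L ⧸ I) = 0 := by
    have h7 : (LieSubmodule.Quotient.mk (x - g) : L ⧸ I)
        = LieSubmodule.Quotient.mk x - LieSubmodule.Quotient.mk g := rfl
    rw [h7, hgx, sub_self]
  exact (LieSubmodule.Quotient.mk_eq_zero (N := I)).1 this

end Pool.Agent.Helper40.Kos
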